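import Mathlib

set_option autoImplicit false

namespace Pool.Agent.Results.MP_61ae3e_pr.Q1
open Finset

variable {n : ℕ}

/-- neighbours of `v` of minimum load, provided that load is below the load of `v` -/
def down (G : SimpleGraph (Fin n)) [DecidableRel G.Adj] (X : Fin n → ℕ) (v : Fin n) :
    Finset (Fin n) :=
  univ.filter (fun u => G.Adj v u ∧ X u < X v ∧ ∀ u', G.Adj v u' → X u ≤ X u')

/-- probability that a ball now at `v` settles at `w` (loads frozen at `X`); the first argument
bounds the number of moves, and every move strictly lowers the load of the current vertex -/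
def settle (G : SimpleGraph (Fin n)) [DecidableRel G.Adj] (X : Fin n → ℕ) :
    ℕ → Fin n → Fin n → ℚ
  | 0, v, w => if v = w then 1 else 0
  | f + 1, v, w =>
    if down G X v = ∅ then (if v = w then 1 else 0)
    else (∑ u ∈ down G X v, settle G X f u w) / (down G X v).card

/-- probability that the next ball (uniform birthplace `u`) is placed at `w` -/
def place (G : SimpleGraph (Fin n)) [DecidableRel G.Adj] (X : Fin n → ℕ) (w : Fin n) : ℚ :=
  (∑ u, settle G X (X u) u w) / n

/-- probability that, starting from loads `X`, the maximum load after `m` more balls is `≥ l` -/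
def tail (G : SimpleGraph (Fin n)) [DecidableRel G.Adj] (l : ℕ) : ℕ → (Fin n → ℕ) → ℚ
  | 0, X => if l ≤ univ.sup X then 1 else 0
  | m + 1, X => ∑ w, place G X w * tail G l m (Function.update X w (X w + 1))

/-- `K_{3,2}` with parts `{0,1,2}` and `{3,4}` -/
def G1 : SimpleGraph (Fin 5) where
  Adj a b := (a.val < 3 ∧ 3 ≤ b.val) ∨ (3 ≤ a.val ∧ b.val < 3)
  symm := ⟨fun a b h => by omega⟩
  loopless := ⟨fun a h => by omega⟩

/-- `K_{3,2}` plus the edge `{3,4}` -/
def G2 : SimpleGraph (Fin 5) where
  Adj a b := (a.val < 3 ∧ 3 ≤ b.val) ∨ (3 ≤ a.val ∧ b.val < 3) ∨ (a.val = 3 ∧ b.val = 4) ∨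
    (a.val = 4 ∧ b.val = 3)
  symm := ⟨fun a b h => by omega⟩
  loopless := ⟨fun a h => by omega⟩

instance : DecidableRel G1.Adj := fun a b => by unfold G1; infer_instance
instance : DecidableRel G2.Adj := fun a b => by unfold G2; infer_instance

theorem result : ∃ (n : ℕ) (G G' : SimpleGraph (Fin n)) (_ : DecidableRel G.Adj)
    (_ : DecidableRel G'.Adj) (m l : ℕ), G ≤ G' ∧
      tail G l m (fun _ => 0) < tail G' l m (fun _ => 0) := by
  refine ⟨5, G1, G2, inferInstance, inferInstance, 4, 2, ?_, ?_⟩
  · intro a b h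
    simp only [G1, G2] at h ⊢
    omega
  · decide +kernel

end Pool.Agent.Results.MP_61ae3e_pr.Q1
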